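import Pool.Agent.MP_bd94e8_al.H89.Spec

/-!
The combinatorics of arrows and ties of a thin space of matrices.
-/

set_option autoImplicit false

namespace Pool.Agent.MP_bd94e8_al.H89

namespace CombA

variable {F Pt ι : Type} [Field F] [Fintype Pt] [DecidableEq Pt] {vt : Pt → ι}
  {R : Set (Matrix Pt Pt F)}

/-- A matrix of the space supported in one entry gives the matrix unit. -/
theorem single_of_supp (hT : Thin vt R) {h : Matrix Pt Pt F} (hh : h ∈ R) {p q : Pt}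
    (h0 : h q p ≠ 0) (hs : ∀ y x, h y x ≠ 0 → x = p ∧ y = q) : Matrix.single q p (1 : F) ∈ R :=
  hT.mm h hh (p, q) (p, q) rfl rfl (Or.inl rfl)
    (fun y x hyx => Or.inl (Prod.ext (hs y x hyx).1 (hs y x hyx).2)) h0

omit [Fintype Pt] [DecidableEq Pt] in
theorem sup2_symm {h : Matrix Pt Pt F} {a b : Pt × Pt} (hs : Sup2 h a b) : Sup2 h b a :=
  fun q p hq => (hs q p hq).symm

/-- Every arrow is an entry of a matching element. -/
theorem exists_match (hT : Thin vt R) {p q : Pt} (h : Arr R p q) :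
    ∃ g ∈ R, g q p ≠ 0 ∧ ∃ b : Pt × Pt, vt p = vt b.1 ∧ vt q = vt b.2 ∧ (p = b.1 ↔ q = b.2) ∧
      Sup2 g (p, q) b := by
  obtain ⟨r, hr, h0⟩ := h
  have hc := hT.span r hr
  clear hr
  induction hc using AddSubmonoid.closure_induction with
  | mem g hg =>
    obtain ⟨hg, a, b, h1, h2, h3, h4⟩ := hg
    rcases h4 q p h0 with rfl | rfl
    · exact ⟨g, hg, h0, b, h1, h2, h3, h4⟩
    · exact ⟨g, hg, h0, a, h1.symm, h2.symm, by rw [eq_comm, h3, eq_comm], sup2_symm h4⟩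
  | zero => exact (h0 rfl).elim
  | add x y _ _ ihx ihy =>
    by_cases hx : x q p = 0
    · exact ihy (by simpa [hx] using h0)
    · exact ihx hx

/-- Every arrow is an entry of an element whose row and column have no other entry. -/
theorem exists_iso (hT : Thin vt R) {p q : Pt} (h : Arr R p q) :
    ∃ g ∈ R, g q p ≠ 0 ∧ (∀ y, g y p ≠ 0 → y = q) ∧ ∀ x, g q x ≠ 0 → x = p := by
  obtain ⟨g, hg, h0, b, -, -, h3, h4⟩ := exists_match hT h
  refine ⟨g, hg, h0, fun y hy => ?_, fun x hx => ?_⟩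
  · rcases h4 y p hy with e | rfl
    · exact (Prod.ext_iff.1 e).2
    · exact (h3.1 rfl).symm
  · rcases h4 q x hx with e | rfl
    · exact (Prod.ext_iff.1 e).1
    · exact (h3.2 rfl).symm

theorem exists_tie (hT : Thin vt R) {p q : Pt} (h : Arr R p q)
    (hn : Matrix.single q p (1 : F) ∉ R) : ∃ b, Tie vt R (p, q) b := by
  obtain ⟨g, hg, h0, b, h1, h2, -, h4⟩ := exists_match hT h
  have key : (p, q) ≠ b ∧ g b.2 b.1 ≠ 0 := by
    by_contra hc
    refine hn (single_of_supp hT hg h0 fun y x hyx => ?_)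
    rcases h4 y x hyx with e | rfl
    · exact Prod.ext_iff.1 e
    · have e : (p, q) = (x, y) := by
        by_contra e
        exact hc ⟨e, hyx⟩
      exact Prod.ext_iff.1 e.symm
  exact ⟨b, key.1, h1, h2, hn, g, hg, h0, key.2, h4⟩

omit [DecidableEq Pt] in
theorem mul_ne {g g' : Matrix Pt Pt F} {y x : Pt} (h : (g' * g) y x ≠ 0) :
    ∃ w, g' y w ≠ 0 ∧ g w x ≠ 0 := by
  rw [Matrix.mul_apply] at h
  obtain ⟨w, -, hw⟩ := Finset.exists_ne_zero_of_sum_ne_zero h
  exact ⟨w, mul_ne_zero_iff.1 hw⟩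

omit [DecidableEq Pt] in
theorem mul_col {g : Matrix Pt Pt F} (g' : Matrix Pt Pt F) {p q : Pt} (r : Pt)
    (h : ∀ y, g y p ≠ 0 → y = q) : (g' * g) r p = g' r q * g q p := by
  rw [Matrix.mul_apply, Finset.sum_eq_single q (fun y _ hy => ?_) (by simp)]
  rw [of_not_not (mt (h y) hy), mul_zero]

theorem arr_trans (hT : Thin vt R) {p q r : Pt} (h : Arr R p q) (h' : Arr R q r) : Arr R p r := by
  obtain ⟨g, hg, h0, h1, -⟩ := exists_iso hT h
  obtain ⟨g', hg', h0'⟩ := h'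
  exact ⟨g' * g, hT.mul _ hg' _ hg, by rw [mul_col g' r h1]; exact mul_ne_zero h0' h0⟩

omit [Fintype Pt] in
theorem single_ne {p q y x : Pt} (h : Matrix.single q p (1 : F) y x ≠ 0) : x = p ∧ y = q := by
  by_contra hc
  exact h (Matrix.single_apply_of_ne _ _ _ _ _ fun e => hc ⟨e.2.symm, e.1.symm⟩)

theorem single_right (hT : Thin vt R) {p q r : Pt} (h : Matrix.single q p (1 : F) ∈ R)
    (h' : Arr R q r) : Matrix.single r p (1 : F) ∈ R := by
  obtain ⟨g, hg, h0, h1, -⟩ := exists_iso hT h'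
  refine single_of_supp hT (hT.mul _ hg _ h) ?_ fun y x hyx => ?_
  · rw [mul_col g r fun y hy => (single_ne hy).2, Matrix.single_apply_same, mul_one]
    exact h0
  · obtain ⟨w, a1, a2⟩ := mul_ne hyx
    obtain ⟨rfl, rfl⟩ := single_ne a2
    exact ⟨rfl, h1 y a1⟩

theorem single_left (hT : Thin vt R) {p q r : Pt} (h : Arr R p q)
    (h' : Matrix.single r q (1 : F) ∈ R) : Matrix.single r p (1 : F) ∈ R := by
  obtain ⟨g, hg, h0, h1, h2⟩ := exists_iso hT h
  refine single_of_supp hT (hT.mul _ h' _ hg) ?_ fun y x hyx => ?_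
  · rw [mul_col _ r h1, Matrix.single_apply_same, one_mul]
    exact h0
  · obtain ⟨w, a1, a2⟩ := mul_ne hyx
    obtain ⟨rfl, rfl⟩ := single_ne a1
    exact ⟨h2 x a2, rfl⟩

theorem tie_ne (hT : Thin vt R) {a b : Pt × Pt} (h : Tie vt R a b) : a.1 ≠ b.1 ∧ a.2 ≠ b.2 := by
  obtain ⟨-, h1, h2, h3, g, hg, h4, -, h6⟩ := h
  exact ⟨fun e => h3 (hT.mm g hg a b h1 h2 (Or.inl e) h6 h4),
    fun e => h3 (hT.mm g hg a b h1 h2 (Or.inr e) h6 h4)⟩

theorem tie_symm (hT : Thin vt R) {a b : Pt × Pt} (h : Tie vt R a b) : Tie vt R b a := by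
  obtain ⟨h0, h1, h2, h3, g, hg, h4, h5, h6⟩ := h
  refine ⟨h0.symm, h1.symm, h2.symm, fun hb => h3 ?_, g, hg, h5, h4, sup2_symm h6⟩
  have e : ∀ y x, (x, y) ≠ b → Matrix.single b.2 b.1 (1 : F) y x = 0 := fun y x hne => by
    by_contra hc
    exact hne (Prod.ext (single_ne hc).1 (single_ne hc).2)
  refine single_of_supp hT (hT.add _ hg _ (hT.smul (-g b.2 b.1) _ hb)) ?_ fun y x hyx => ?_
  · rwa [Matrix.add_apply, Matrix.smul_apply, e a.2 a.1 h0, smul_zero, add_zero]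
  · by_cases hb' : (x, y) = b
    · subst hb'
      simp at hyx
    · have : g y x ≠ 0 := by
        rwa [Matrix.add_apply, Matrix.smul_apply, e y x hb', smul_zero, add_zero] at hyx
      exact Prod.ext_iff.1 ((h6 y x this).resolve_right hb')

theorem tie_trans (hT : Thin vt R) {a b c : Pt × Pt} (h : Tie vt R a b) (h' : Tie vt R b c)
    (hac : a ≠ c) : Tie vt R a c := by
  obtain ⟨h0, h1, h2, h3, g, hg, h4, h5, h6⟩ := h
  obtain ⟨h0', h1', h2', -, g', hg', h4', h5', h6'⟩ := h'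
  have e1 : g' a.2 a.1 = 0 := by
    by_contra hc
    exact (h6' _ _ hc).elim h0 hac
  have e2 : g c.2 c.1 = 0 := by
    by_contra hc
    exact (h6 _ _ hc).elim hac.symm h0'.symm
  refine ⟨hac, h1.trans h1', h2.trans h2', h3, g' b.2 b.1 • g + (-g b.2 b.1) • g',
    hT.add _ (hT.smul _ _ hg) _ (hT.smul _ _ hg'), by simp [e1, h4, h4'], by simp [e2, h5, h5'],
    fun y x hyx => ?_⟩
  have hb : (x, y) ≠ b := by
    rintro rfl
    apply hyx
    simp [mul_comm]
  by_cases hz : g y x = 0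
  · have : g' y x ≠ 0 := fun e => hyx (by simp [hz, e])
    exact Or.inr ((h6' y x this).resolve_left hb)
  · exact Or.inl ((h6 y x hz).resolve_right hb)

/-- Products of tied arrows. -/
theorem tie_mul (hT : Thin vt R) {p z q : Pt} {b c : Pt × Pt} (h : Tie vt R (p, z) b)
    (h' : Tie vt R (z, q) c) (hn : Matrix.single q p (1 : F) ∉ R) :
    b.2 = c.1 ∧ Tie vt R (p, q) (b.1, c.2) := by
  obtain ⟨n1, n2⟩ := tie_ne hT h
  obtain ⟨n3, n4⟩ := tie_ne hT h'
  obtain ⟨p', z'⟩ := b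
  obtain ⟨z'', q'⟩ := c
  obtain ⟨-, h1, -, -, g, hg, h4, h5, h6⟩ := h
  obtain ⟨-, -, h2', -, g', hg', h4', h5', h6'⟩ := h'
  dsimp only at *
  have c1 : ∀ y, g y p ≠ 0 → y = z := fun y hy =>
    (h6 y p hy).elim (fun e => (Prod.ext_iff.1 e).2) fun e => (n1 (Prod.ext_iff.1 e).1).elim
  have c2 : ∀ y, g y p' ≠ 0 → y = z' := fun y hy =>
    (h6 y p' hy).elim (fun e => (n1 (Prod.ext_iff.1 e).1.symm).elim) fun e => (Prod.ext_iff.1 e).2
  have s : ∀ y x, (g' * g) y x ≠ 0 → (x = p ∧ y = q) ∨ (z' = z'' ∧ x = p' ∧ y = q') := by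
    intro y x hyx
    obtain ⟨w, a1, a2⟩ := mul_ne hyx
    rcases h6 w x a2 with e | e <;> rcases h6' y w a1 with e' | e' <;>
      obtain ⟨rfl, rfl⟩ := Prod.ext_iff.1 e <;> obtain ⟨e1, e2⟩ := Prod.ext_iff.1 e'
    · exact Or.inl ⟨rfl, e2⟩
    · exact (n3 e1).elim
    · exact (n2 e1.symm).elim
    · exact Or.inr ⟨e1, rfl, e2⟩
  have m0 : (g' * g) q p ≠ 0 := by
    rw [mul_col g' q c1]
    exact mul_ne_zero h4' h4
  have hz : z' = z'' := by
    by_contra hz
    exact hn (single_of_supp hT (hT.mul _ hg' _ hg) m0 fun y x hyx =>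
      (s y x hyx).resolve_right fun e => hz e.1)
  subst hz
  refine ⟨rfl, fun e => n1 (Prod.ext_iff.1 e).1, h1, h2', hn, g' * g, hT.mul _ hg' _ hg, m0, ?_,
    fun y x hyx => ?_⟩
  · rw [mul_col g' q' c2]
    exact mul_ne_zero h5' h5
  · exact (s y x hyx).imp (fun e => Prod.ext e.1 e.2) fun e => Prod.ext e.2.1 e.2.2

omit [Fintype Pt] in
theorem tie_arr {a b : Pt × Pt} (h : Tie vt R a b) : Arr R a.1 a.2 := by
  obtain ⟨-, -, -, -, g, hg, h4, -⟩ := h
  exact ⟨g, hg, h4⟩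

end CombA

open CombA

theorem comb : SComb := by
  intro F Pt ι _ _ _ vt R hT h3
  refine ⟨fun p ⟨r, hr, h⟩ => h (hT.diag r hr p), fun p q r => arr_trans hT, h3,
    fun a b => tie_arr, fun a b => tie_symm hT,
    fun a b h => ⟨h.2.1, h.2.2.1, tie_ne hT h⟩, fun a b c => tie_trans hT, ?_, ?_, ?_⟩
  · intro p q z b h h1 h2
    have hn : Matrix.single q p (1 : F) ∉ R := h.2.2.2.1
    obtain ⟨c, hc⟩ := exists_tie hT h1 fun e => hn (single_right hT e h2)
    obtain ⟨d, hd⟩ := exists_tie hT h2 fun e => hn (single_left hT h1 e)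
    obtain ⟨e, ht⟩ := tie_mul hT hc hd hn
    exact ⟨c.1, c.2, d.2, hc, by rw [e]; exact hd, ht⟩
  · intro x y z b c d hb hc hbc h1 h
    have hn : Matrix.single z x (1 : F) ∉ R := h.2.2.2.1
    obtain ⟨u, hu⟩ := exists_tie hT h1 fun e => hn (single_left hT (tie_arr hb) e)
    exact (tie_ne hT (tie_trans hT (tie_symm hT hb) hc hbc)).2
      ((tie_mul hT hb hu hn).1.trans (tie_mul hT hc hu hn).1.symm)
  · intro x y z b c d hb hc hbc h1 h
    have hn : Matrix.single y z (1 : F) ∉ R := h.2.2.2.1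
    obtain ⟨u, hu⟩ := exists_tie hT h1 fun e => hn (single_right hT e (tie_arr hb))
    exact (tie_ne hT (tie_trans hT (tie_symm hT hb) hc hbc)).1
      ((tie_mul hT hu hb hn).1.symm.trans (tie_mul hT hu hc hn).1)

end Pool.Agent.MP_bd94e8_al.H89
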